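import Pool.Agent.H261R3.LH.Main

set_option autoImplicit false

open scoped NNReal
open UpperHalfPlane

namespace Pool.Agent.H261R3.LH

namespace CellAux

theorem re_cellPt (j k : ℤ) (s h : ℝ) : (cellPt j k s h).re = 2 ^ j * (k + s) := rfl

theorem im_cellPt (j k : ℤ) (s h : ℝ) : (cellPt j k s h).im = 2 ^ j * (1 + clip h) := rfl

theorem clip_lip (x y : ℝ) : |clip x - clip y| ≤ |x - y| := by
  unfold clip
  have h1 : |max 0 (min 1 x) - max 0 (min 1 y)| ≤ |min 1 x - min 1 y| := by
    have := abs_max_sub_max_le_max (0:ℝ) (min 1 x) 0 (min 1 y)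
    simpa using this
  have h2 : |min 1 x - min 1 y| ≤ |x - y| := by
    have := abs_min_sub_min_le_max (1:ℝ) x 1 y
    simpa using this
  exact h1.trans h2

theorem log_lip {x y : ℝ} (hx : 1 ≤ x) (hy : 1 ≤ y) : |Real.log x - Real.log y| ≤ |x - y| := by
  have key : ∀ {x y : ℝ}, 1 ≤ x → 1 ≤ y → Real.log x - Real.log y ≤ |x - y| := by
    intro x y hx hy
    have hx0 : 0 < x := by linarith
    have hy0 : 0 < y := by linarith
    rw [← Real.log_div hx0.ne' hy0.ne']
    have h1 : Real.log (x / y) ≤ x / y - 1 := Real.log_le_sub_one_of_pos (div_pos hx0 hy0)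
    have h2 : x / y - 1 = (x - y) / y := by field_simp
    have h3 : (x - y) / y ≤ |x - y| / y := by
      gcongr; exact le_abs_self _
    have h4 : |x - y| / y ≤ |x - y| := div_le_self (abs_nonneg _) hy
    linarith
  rw [abs_le]
  constructor
  · have := key hy hx
    rw [abs_sub_comm] at this
    linarith
  · exact key hx hy

theorem ext_pt {a b : ℍ} (h1 : a.re = b.re) (h2 : a.im = b.im) : a = b :=
  UpperHalfPlane.ext (Complex.ext h1 h2)

theorem clip_of {x : ℝ} (h0 : 0 ≤ x) (h1 : x ≤ 1) : clip x = x := by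
  unfold clip
  rw [min_eq_right h1, max_eq_right h0]

end CellAux

open CellAux

theorem taskCell : TaskCell := by
  intro S _ F hF
  refine ⟨⟨?_, ?_, ?_, ?_, ?_⟩, ?_⟩
  · intro j k h x y
    refine (hF _ _).trans ?_
    refine (dist_le_dist_coe_div_sqrt _ _).trans ?_
    have h2 : (0 : ℝ) < 2 ^ j := by positivity
    have hc := clip_nonneg h
    have e1 : dist ((cellPt j k x h : ℍ) : ℂ) ((cellPt j k y h : ℍ) : ℂ) = 2 ^ j * |x - y| := by
      rw [Complex.dist_of_im_eq]
      · show dist ((2:ℝ) ^ j * (k + x)) (2 ^ j * (k + y)) = _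
        rw [Real.dist_eq, ← mul_sub, abs_mul, abs_of_pos h2]
        congr 2
        ring
      · rfl
    rw [e1, im_cellPt, im_cellPt, Real.sqrt_mul_self (by positivity), one_mul]
    rw [div_le_iff₀ (by positivity)]
    have : 0 ≤ |x - y| := abs_nonneg _
    nlinarith [mul_nonneg (mul_nonneg h2.le this) hc]
  · intro j k s x y
    refine (hF _ _).trans ?_
    have h2 : (0 : ℝ) < 2 ^ j := by positivity
    have hcx := clip_nonneg x
    have hcy := clip_nonneg y
    rw [dist_of_re_eq (by rw [re_cellPt, re_cellPt]), im_cellPt, im_cellPt, Real.dist_eq,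
      Real.log_mul h2.ne' (by positivity), Real.log_mul h2.ne' (by positivity)]
    have e1 : Real.log (2 ^ j) + Real.log (1 + clip x) - (Real.log (2 ^ j) + Real.log (1 + clip y))
        = Real.log (1 + clip x) - Real.log (1 + clip y) := by ring
    rw [e1, one_mul]
    refine (log_lip (by linarith) (by linarith)).trans ?_
    have e2 : 1 + clip x - (1 + clip y) = clip x - clip y := by ring
    rw [e2]
    exact clip_lip x y
  · intro j k h
    have : cellPt j k 1 h = cellPt j (k + 1) 0 h := by
      apply ext_pt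
      · rw [re_cellPt, re_cellPt]; push_cast; ring
      · rw [im_cellPt, im_cellPt]
    show F _ = F _
    rw [this]
  · intro j k s hs0 hs1
    have : cellPt j (2 * k) s 1 = cellPt (j + 1) k (s / 2) 0 := by
      apply ext_pt
      · rw [re_cellPt, re_cellPt, zpow_add₀ two_ne_zero, zpow_one]; push_cast; ring
      · rw [im_cellPt, im_cellPt, clip_of zero_le_one le_rfl, clip_of le_rfl zero_le_one,
          zpow_add₀ two_ne_zero, zpow_one]; ring
    show F _ = F _
    rw [this]
  · intro j k s hs0 hs1
    have : cellPt j (2 * k + 1) s 1 = cellPt (j + 1) k ((1 + s) / 2) 0 := by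
      apply ext_pt
      · rw [re_cellPt, re_cellPt, zpow_add₀ two_ne_zero, zpow_one]; push_cast; ring
      · rw [im_cellPt, im_cellPt, clip_of zero_le_one le_rfl, clip_of le_rfl zero_le_one,
          zpow_add₀ two_ne_zero, zpow_one]; ring
    show F _ = F _
    rw [this]
  · intro z
    unfold asm
    have h2 : (0 : ℝ) < 2 ^ (Int.log 2 z.im) := by positivity
    have : cellPt (Int.log 2 z.im) ⌊z.re / 2 ^ (Int.log 2 z.im)⌋
        (Int.fract (z.re / 2 ^ (Int.log 2 z.im))) (z.im / 2 ^ (Int.log 2 z.im) - 1) = z := by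
      apply ext_pt
      · rw [re_cellPt, Int.floor_add_fract]; field_simp
      · rw [im_cellPt, clip_of (asm_coord z).1 (asm_coord z).2]; field_simp; ring
    show F _ = F _
    rw [this]

end Pool.Agent.H261R3.LH
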